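import Pool.Agent.U84.DD.Dio

/-!
# Dense sets of integers and of quasi-integers define the integers in the rationals

We consider the ring `ℚ` with a predicate for a set `D` of rational numbers. `DefinesZ 𝒟`: one
existential formula defines the set `ℤ` in this structure, for all sets `D` of the class `𝒟`. If
such a set `D` is existentially definable in the ring `ℚ`, then `ℤ` is existentially definable in
the ring `ℚ`.

This is shown for

* all sets `D` of integers such that for a nonconstant polynomial `P` the set of the integers `n`
  with `P(n) ∈ D` has upper Banach density at least `η > 0`;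
* all sets `D` of integers such that there are arbitrarily long intervals `(x, x + N]` with at
  least `η N / log N` primes in `D`;
* all sets `D` of rational numbers `x` with denominators at most `exp (A (1 + log max(1, |x|)) ^ δ)`,
  `δ < 1 / 2`, which contain the values `P(n)` for at least `η N` of the integers `1 ≤ n ≤ N`, or
  at least `η N / log N` of the primes `p ≤ N`, for all `N ≥ N₀`.

Proof: the multiples of a positive integer `g` are sums of `K` differences of elements of `D`. For
polynomials: pigeonhole, differencing of the polynomial and induction on the degree. For primes: an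
upper bound sieve for prime pairs in short intervals shows that the differences of the primes in `D`
have positive density. Quasi-integers: the rational numbers `x` such that `g x` is a sum of `K`
differences of elements of `D` which are at most `C (1 + |x|) ^ κ` are quasi-integers and contain
`ℤ`; then the starting theorem `QuasiIntegers` applies.
-/

set_option autoImplicit false

namespace Pool.Agent.Results.MP_28f2cb_lc.DenseSets

open MvPolynomial Pool.Agent.U84.DD

/-- 1. If a set `D` of a class with `DefinesZ` is existentially definable in `ℚ`, then so is `ℤ`.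
2. Dense sets of integers. 3. Dense sets of quasi-integers. -/
theorem result :
    (∀ 𝒟 : Set ℚ → Prop, DefinesZ 𝒟 → ∀ D : Set ℚ, 𝒟 D → Dio D →
      Dio {x : ℚ | ∃ z : ℤ, (z : ℚ) = x}) ∧
    (∀ P : Polynomial ℚ, 0 < P.natDegree → ∀ η : ℝ, 0 < η →
      DefinesZ (fun D => Integral D ∧ (DenseValues P η D ∨ DensePrimes η D))) ∧
    (∀ P : Polynomial ℚ, 0 < P.natDegree → ∀ (η A δ : ℝ) (N₀ : ℕ), 0 < η → δ < 1 / 2 →
      DefinesZ (fun D => DenLe A δ D ∧ (LowerValues P η N₀ D ∨ LowerPrimes η N₀ D))) := by
  have hint : ∀ A δ : ℝ, δ < 1 / 2 → Pool.Agent.TH255.QI.DT (Pool.Agent.TH255.QI.Qu A δ)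
      (fun _ v => ∃ z : ℤ, v 0 = z) := fun A δ hδ => Pool.Agent.TH255.QI.dt_int hδ
  exact ⟨fun 𝒟 h D hD h1 => dio_of h hD h1, fun P hP η hη => definesZ_of (ints_all P hP η hη),
    fun P hP η A δ N₀ hη hδ => definesZ_of (quasi_all (by norm_num) hint hδ P hP η hη N₀)⟩

end Pool.Agent.Results.MP_28f2cb_lc.DenseSets
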