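import Pool.Agent.U199.K3.Uni
import Pool.Agent.Results.MP_28f2cb_lc.CubicEquations

/-!
# The integers are not defined by smooth K3 double covers of `ℙ¹ × ℙ¹`, by their twists, and by
Calabi–Yau double covers of `(ℙ¹)ⁿ`

Every existential formula over `ℚ` is equivalent to `∃ z w, w² = f(z)` with one polynomial `f` of
degree at most four.  Let `F` be a form of multidegree `(4, …, 4)` on `(ℙ¹)ⁿ` over a number field `K`
such that the divisor `F = 0` is smooth.  The double cover `X : w² = F(1, z₁; …; 1, z_n)` is a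
Calabi–Yau variety; for `n = 2` these are the K3 surfaces which are double covers of `ℙ¹ × ℙ¹`
branched along a smooth curve of bidegree `(4, 4)`.  A plane in `(ℙ¹)ⁿ` in the directions of some of
the factors is special if on it the derivatives of `F` in the other directions are constant multiples
of `F`.  We assume that `n = 2` or that there are only finitely many special planes.

(1) A *block* is the set of ALL `K`-points `(w, z)` of such an `X` with `w ≠ 0` (the set of all its
`K`-points, if the branch divisor has only finitely many `K`-points; for `n = 2` this is always true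
by Faltings's theorem, which is not used here), or one of the blocks considered in
`CubicEquations`.  Take the values of arbitrary rational functions at the `K`-points of a product of
blocks, restricted to an arbitrary open subset of the `L`-valued points, where `L` is the completion of
`K` at any place, and take finite unions of such sets.  A set of this kind has only finitely many
points which are isolated in it for the topology of `L`.

(2), (3) For `K = ℚ` a set of integers of this kind is finite.  In particular, the set of the values of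
a rational function at the rational points off the branch curve of a K3 surface as above is never the
set of the integers.

(4) One finite set for all twists over all extensions of bounded degree: let `p₁/q, …, p_m/q` be
rational functions of `z` over `K`.  For each `D` there is a finite set `V` of vectors of algebraic
numbers such that for ALL extensions `L` of `K` of degree at most `D`, ALL `e ∈ Lˣ`, ALL completions `M`
of `L` and ALL open subsets `Ω` of `M^{1+n}` the isolated points (in the topology of `M`) of the set of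
the values at the `L`-points of `w² = e F(1, z)`, `w ≠ 0`, in `Ω` are in `V`.

(5) So for each rational function `p/q` over `ℚ` there is ONE finite set `V` of integers: if for some
`e ∈ ℚˣ` and some open set `Ω` the values of `p/q` at the rational points of `w² = e F(1, z)`, `w ≠ 0`,
in `Ω` are integers, then they are in `V`.

No condition is imposed on the points (in the starting result `CalabiYauDoubleCovers` only points are
considered which are of infinite order in sufficiently many directions).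
-/

set_option autoImplicit false

namespace Pool.Agent.Results.MP_28f2cb_lc.K3DoubleCovers

open MvPolynomial

/-- `F` is a form of degree `4` in each pair of variables `(j, 0)`, `(j, 1)`, the coordinates of the
`j`-th factor of `(ℙ¹)ⁿ`. -/
def IsForm {K : Type} [Field K] {n : ℕ} (F : MvPolynomial (Fin n × Fin 2) K) : Prop :=
  ∀ m ∈ F.support, ∀ j, m (j, 0) + m (j, 1) = 4

/-- The divisor `F = 0` in `(ℙ¹)ⁿ` is smooth. -/
def Smooth {K : Type} [Field K] {n : ℕ} (F : MvPolynomial (Fin n × Fin 2) K) : Prop :=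
  ∀ x : Fin n × Fin 2 → AlgebraicClosure K, (∀ j, ∃ b, x (j, b) ≠ 0) → ∃ p, aeval x (pderiv p F) ≠ 0

/-- `Y` has the same coordinates as `X` in the factors which do not belong to `J`. -/
def SameOutside {K : Type} {n : ℕ} (J : Finset (Fin n)) (X Y : Fin n × Fin 2 → K) : Prop :=
  ∀ j, j ∉ J → ∀ b, Y (j, b) = X (j, b)

/-- The plane through `X` in the directions of `J` is special: on it the derivatives of `F` in the
other directions are constant multiples of `F`. -/
def Special {K : Type} [Field K] {n : ℕ} (F : MvPolynomial (Fin n × Fin 2) K)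
    (X : Fin n × Fin 2 → K) (J : Finset (Fin n)) : Prop :=
  ∀ k, k ∉ J → ∀ b, ∃ c : K, ∀ Y, SameOutside J X Y → eval Y (pderiv (k, b) F) = c * eval Y F

/-- There are only finitely many special planes (through `K`-points off the branch divisor). -/
def FewSpecialPlanes {K : Type} [Field K] {n : ℕ} (F : MvPolynomial (Fin n × Fin 2) K) : Prop :=
  ∀ J : Finset (Fin n), J.Nonempty → J ≠ Finset.univ →
    {P : Set (Fin n × Fin 2 → K) | ∃ X, eval X F ≠ 0 ∧ Special F X J ∧
      P = {Y | ∀ j, j ∉ J → ∃ a : K, a ≠ 0 ∧ ∀ b, Y (j, b) = a * X (j, b)}}.Finite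

/-- The coordinates `(1, z₁; …; 1, z_n)`. -/
def coords {R : Type} [One R] {n : ℕ} (z : Fin n → R) (p : Fin n × Fin 2) : R :=
  if p.2 = 0 then 1 else z p.1

/-- `S` is the set of the `K`-points `(w, z)` with `w ≠ 0` of a double cover `w² = F(1, z)` as above,
or the set of all its `K`-points, if the branch divisor has only finitely many `K`-points. -/
def DoubleCover {K : Type} [Field K] {n : ℕ} (S : Set (Fin (n + 1) → K)) : Prop :=
  ∃ F : MvPolynomial (Fin n × Fin 2) K, IsForm F ∧ Smooth F ∧ (n = 2 ∨ FewSpecialPlanes F) ∧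
    (S = {u | u 0 ≠ 0 ∧ u 0 ^ 2 = eval (coords fun k => u k.succ) F} ∨
      {z : Fin n → K | eval (coords z) F = 0}.Finite ∧
        S = {u | u 0 ^ 2 = eval (coords fun k => u k.succ) F})

/-- A block of `CubicEquations`, or the set of the points whose coordinates in some of `N`
variables form a point of a set as in `DoubleCover`. -/
def Block {K : Type} [Field K] {N : ℕ} (S : Set (Fin N → K)) : Prop :=
  CubicEquations.Block S ∨
  ∃ (n : ℕ) (e : Fin (n + 1) → Fin N) (S₀ : Set (Fin (n + 1) → K)), Function.Injective e ∧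
    DoubleCover S₀ ∧ S = {y | (fun i => y (e i)) ∈ S₀}

/-- The values of `(p₁/q, …, p_m/q)` at the points `(w, z)` of `w² = e F(1, z)` with `w ≠ 0` and
`q(z) ≠ 0` whose image in `M^{1+n}` is in `Ω`. -/
def twistValues {L M : Type} [Field L] [Field M] (σ : L →+* M) {n m : ℕ}
    (F : MvPolynomial (Fin n × Fin 2) L) (e : L) (Ω : Set (Fin (n + 1) → M))
    (p : Fin m → MvPolynomial (Fin n) L) (q : MvPolynomial (Fin n) L) : Set (Fin m → L) :=
  {t | ∃ (w : L) (z : Fin n → L), w ≠ 0 ∧ w ^ 2 = e * eval (coords z) F ∧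
    (Fin.cons (σ w) fun k => σ (z k) : Fin (n + 1) → M) ∈ Ω ∧ eval z q ≠ 0 ∧
    ∀ i, t i = eval z (p i) / eval z q}

/-- the local ideals of the blocks of `CubicEquations` (from the proof there) -/
lemma cubic_FA {K L : Type} [Field K] [NumberField K] [NontriviallyNormedField L] [CompleteSpace L]
    [CharZero L] [ProperSpace L] (σ : K →+* L) (hσ : DenseRange σ) {N : ℕ} {S : Set (Fin N → K)}
    (hS : CubicEquations.Block S) : Pool.Agent.TH729.CV.FA σ S := by
  rcases hS with ⟨f, g, hfg, hS'⟩ | ⟨n, e, S₀, he, ⟨hn, A, B, C, hA, hB, hC, hind, hdet, hS₀⟩, hS'⟩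
  · rw [hS']
    exact Pool.Agent.TH729.CV.FA.block σ hσ hfg
  · rw [hS']
    refine Pool.Agent.TH729.CV.FA.cyl hσ ?_ he
    obtain ⟨𝓑, h𝓑, hbad⟩ := Pool.Agent.TH729.BQ.matFam_bad hA hB hC hdet
    have h3 := Pool.Agent.TH729.BQ.FA_V σ hσ
      (F := Pool.Agent.TH729.BQ.matFam A B C hA hB hC)
      (Pool.Agent.TH729.BQ.matFam_ind hA hB hC hind) hn h𝓑 hbad
    have h4 : (Pool.Agent.TH729.BQ.matFam A B C hA hB hC).V = S₀ := by
      rw [hS₀]
      ext y
      show (_ = _) ↔ _ = _
      rw [Pool.Agent.TH729.BQ.matFam_val]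
      simp only [Matrix.cons_val_zero, Matrix.cons_val_one, Matrix.cons_val_fin_one, mul_one,
        one_pow, one_smul]
    rwa [h4] at h3

lemma few_of {K : Type} [Field K] [CharZero K] {n : ℕ} {F : MvPolynomial (Fin n × Fin 2) K}
    (hF : IsForm F) (hs : Smooth F) (h : n = 2 ∨ FewSpecialPlanes F) :
    Pool.Agent.Q35.TT.FinSpecF F := by
  rcases h with rfl | h
  · exact Pool.Agent.Q35.TT.fsf2 K F hF hs
  · exact h

lemma eval_chart {K : Type} [Field K] [CharZero K] {n : ℕ} {F : MvPolynomial (Fin n × Fin 2) K}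
    (hF : IsForm F) (z : Fin n → K) :
    eval z (Pool.Agent.Q35.TT.ch F fun _ => 0) = eval (coords z) F :=
  (Pool.Agent.Q182.TT.CHF.chf K n F hF fun _ => 0).2.2.1 z

/-- finitely many local ideals at the rational points of blocks -/
lemma block_FK {K L : Type} [Field K] [NumberField K] [NontriviallyNormedField L] [CompleteSpace L]
    [CharZero L] [ProperSpace L] (σ : K →+* L) (hσ : DenseRange σ) {N : ℕ} {S : Set (Fin N → K)}
    (hS : Block S) : Pool.Agent.U199.K3.FK σ S := by
  rcases hS with hS | ⟨n, e, S₀, he, ⟨F, hF, hs, hfin, hS₀⟩, rfl⟩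
  · exact Pool.Agent.U199.K3.FK.of_FA (cubic_FA σ hσ hS)
  · refine Pool.Agent.U199.K3.FK.cyl hσ ?_ he
    obtain ⟨c1, c2, c3, -, c5, -⟩ := Pool.Agent.Q182.TT.CHF.chf K n F hF fun _ => 0
    have hfin' := c5 (few_of hF hs hfin)
    rcases hS₀ with rfl | ⟨hb, rfl⟩
    · have h1 := Pool.Agent.U199.K3.fk_dc0 σ hσ _ c1 (c2 hs) hfin'
      have h2 : Pool.Agent.U199.K3.dc0 (Pool.Agent.Q35.TT.ch F fun _ => 0) =
          {u | u 0 ≠ 0 ∧ u 0 ^ 2 = eval (coords fun k => u k.succ) F} := by
        ext u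
        simp only [Pool.Agent.U199.K3.dc0, Set.mem_ofPred_eq, eval_chart hF]
      rwa [h2] at h1
    · have h1 := Pool.Agent.U199.K3.fk_dc σ hσ _ c1 (c2 hs) hfin' (by
        simp only [eval_chart hF]
        exact hb)
      have h2 : Pool.Agent.U199.K3.dc (Pool.Agent.Q35.TT.ch F fun _ => 0) =
          {u | u 0 ^ 2 = eval (coords fun k => u k.succ) F} := by
        ext u
        simp only [Pool.Agent.U199.K3.dc, Set.mem_ofPred_eq, eval_chart hF]
      rwa [h2] at h1

lemma twist_eq {L M : Type} [Field L] [CharZero L] [Field M] (σ : L →+* M) {n m : ℕ}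
    {F : MvPolynomial (Fin n × Fin 2) L} (hF : IsForm F) (e : L) (Ω : Set (Fin (n + 1) → M))
    (p : Fin m → MvPolynomial (Fin n) L) (q : MvPolynomial (Fin n) L) :
    twistValues σ F e Ω p q =
      Pool.Agent.U199.K3.tval σ (Pool.Agent.Q35.TT.ch F fun _ => 0) e Ω p q := by
  ext t
  constructor
  · rintro ⟨w, z, hw, hwz, hΩ, hq, ht⟩
    refine ⟨Fin.cons w z, by simpa using hw, ?_, ?_, by simpa using hq, fun i => by simpa using ht i⟩
    · rw [eval_chart hF]
      simpa using hwz
    · have h1 : (fun k => σ ((Fin.cons w z : Fin (n + 1) → L) k)) =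
          (Fin.cons (σ w) fun k => σ (z k) : Fin (n + 1) → M) := by
        funext k
        refine Fin.cases ?_ (fun j => ?_) k
        · rfl
        · rfl
      rw [h1]
      exact hΩ
  · rintro ⟨u, hw, hwz, hΩ, hq, ht⟩
    refine ⟨u 0, fun k => u k.succ, hw, ?_, ?_, hq, ht⟩
    · rw [eval_chart hF] at hwz
      exact hwz
    · have h1 : (Fin.cons (σ (u 0)) fun k : Fin n => σ (u k.succ) : Fin (n + 1) → M) =
          fun k => σ (u k) := by
        funext k
        refine Fin.cases ?_ (fun j => ?_) k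
        · rfl
        · rfl
      rw [h1]
      exact hΩ

open CubicEquations (values)

theorem result :
    -- (1) number fields: finitely many isolated points in every completion
    (∀ (K : Type) [Field K] [NumberField K] (L : Type) [NontriviallyNormedField L]
      [CompleteSpace L] (σ : K →+* L), DenseRange σ →
      ∀ (a b N m : ℕ) (S : Fin a → Fin b → Set (Fin N → K)), (∀ i j, Block (S i j)) →
      ∀ (Ω : Fin a → Set (Fin b × Fin N → L)), (∀ i, IsOpen (Ω i)) →
      ∀ (p : Fin a → Fin m → MvPolynomial (Fin b × Fin N) K)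
        (q : Fin a → MvPolynomial (Fin b × Fin N) K) (D : Set (Fin m → K)),
        D = ⋃ i, values σ (S i) (Ω i) (p i) (q i) →
        {t ∈ D | ∃ U ∈ nhds (fun k => σ (t k)), ∀ s ∈ D, (fun k => σ (s k)) ∈ U →
          s = t}.Finite) ∧
    -- (2) the rational numbers: sets of integers of this kind are finite
    (∀ (a b N : ℕ) (S : Fin a → Fin b → Set (Fin N → ℚ)), (∀ i j, Block (S i j)) →
      ∀ (Ω : Fin a → Set (Fin b × Fin N → ℝ)), (∀ i, IsOpen (Ω i)) →
      ∀ (p q : Fin a → MvPolynomial (Fin b × Fin N) ℚ) (D : Set ℚ),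
        D = {t | ∃ i, ∃ x : Fin b × Fin N → ℚ, (∀ j, (fun r => x (j, r)) ∈ S i j) ∧
          (fun s => ((x s : ℚ) : ℝ)) ∈ Ω i ∧ eval x (q i) ≠ 0 ∧
          t = eval x (p i) / eval x (q i)} →
        D ⊆ Set.range ((↑) : ℤ → ℚ) → D.Finite) ∧
    -- (3) in particular, the values of a rational function on one block are not the integers
    (∀ (n : ℕ) (S : Set (Fin n → ℚ)), Block S → ∀ p q : MvPolynomial (Fin n) ℚ,
      {t : ℚ | ∃ y ∈ S, eval y q ≠ 0 ∧ t = eval y p / eval y q} ≠ Set.range ((↑) : ℤ → ℚ)) ∧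
    -- (4) one finite set for all twists over all extensions of bounded degree, all places and all
    -- open sets
    (∀ (K : Type) [Field K] [NumberField K] (n : ℕ) (F : MvPolynomial (Fin n × Fin 2) K),
      IsForm F → Smooth F →
      (n = 2 ∨ FewSpecialPlanes (map (algebraMap K (AlgebraicClosure K)) F)) →
      ∀ (D m : ℕ) (p : Fin m → MvPolynomial (Fin n) K) (q : MvPolynomial (Fin n) K),
      ∃ V : Set (Fin m → AlgebraicClosure K), V.Finite ∧
        ∀ (L : Type) [Field L] [NumberField L] [Algebra K L], Module.finrank K L ≤ D →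
        ∀ e : L, e ≠ 0 →
        ∀ (M : Type) [NontriviallyNormedField M] [CompleteSpace M] (σ : L →+* M), DenseRange σ →
        ∀ Ω : Set (Fin (n + 1) → M), IsOpen Ω → ∀ S : Set (Fin m → L),
          S = twistValues σ (map (algebraMap K L) F) e Ω (fun i => map (algebraMap K L) (p i))
            (map (algebraMap K L) q) →
          ∀ t ∈ S, (∃ U ∈ nhds (fun i => σ (t i)), ∀ s ∈ S, (fun i => σ (s i)) ∈ U → s = t) →
            ∀ φ : L →ₐ[K] AlgebraicClosure K, (fun i => φ (t i)) ∈ V) ∧
    -- (5) one finite set of integers for all twists and all open sets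
    (∀ (n : ℕ) (F : MvPolynomial (Fin n × Fin 2) ℚ), IsForm F → Smooth F →
      (n = 2 ∨ FewSpecialPlanes (map (algebraMap ℚ (AlgebraicClosure ℚ)) F)) →
      ∀ p q : MvPolynomial (Fin n) ℚ, ∃ V : Set ℤ, V.Finite ∧
        ∀ e : ℚ, e ≠ 0 → ∀ Ω : Set (Fin (n + 1) → ℝ), IsOpen Ω → ∀ S : Set ℚ,
          S = {t | ∃ (w : ℚ) (z : Fin n → ℚ), w ≠ 0 ∧ w ^ 2 = e * eval (coords z) F ∧
            (Fin.cons (w : ℝ) fun k => (z k : ℝ) : Fin (n + 1) → ℝ) ∈ Ω ∧ eval z q ≠ 0 ∧
            t = eval z p / eval z q} →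
          S ⊆ Set.range ((↑) : ℤ → ℚ) → S ⊆ (↑) '' V) := by
  -- (1)
  have h1 : ∀ (K : Type) [Field K] [NumberField K] (L : Type) [NontriviallyNormedField L]
      [CompleteSpace L] (σ : K →+* L), DenseRange σ →
      ∀ (a b N m : ℕ) (S : Fin a → Fin b → Set (Fin N → K)), (∀ i j, Block (S i j)) →
      ∀ (Ω : Fin a → Set (Fin b × Fin N → L)), (∀ i, IsOpen (Ω i)) →
      ∀ (p : Fin a → Fin m → MvPolynomial (Fin b × Fin N) K)
        (q : Fin a → MvPolynomial (Fin b × Fin N) K) (D : Set (Fin m → K)),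
        D = ⋃ i, values σ (S i) (Ω i) (p i) (q i) →
        {t ∈ D | ∃ U ∈ nhds (fun k => σ (t k)), ∀ s ∈ D, (fun k => σ (s k)) ∈ U →
          s = t}.Finite := by
    intro K _ _ L _ _ σ hσ a b N m S hS Ω hΩ p q D hD
    have : CharZero L := charZero_of_injective_ringHom σ.injective
    have : ProperSpace L := Pool.Agent.W279.Tri.properSpace_of_denseRange σ hσ
    subst hD
    refine Pool.Agent.TH729.CV.isolated_union (fun (t : Fin m → K) k => σ (t k)) _ fun i => ?_
    have h2 := Pool.Agent.U199.K3.FK.prod (σ := σ) (D := fun j => S i j) fun j =>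
      block_FK σ hσ (hS i j)
    exact Pool.Agent.U199.K3.FK.vals_isolated h2 (hΩ i) (p i) (q i)
  -- (2)
  have h2 : ∀ (a b N : ℕ) (S : Fin a → Fin b → Set (Fin N → ℚ)), (∀ i j, Block (S i j)) →
      ∀ (Ω : Fin a → Set (Fin b × Fin N → ℝ)), (∀ i, IsOpen (Ω i)) →
      ∀ (p q : Fin a → MvPolynomial (Fin b × Fin N) ℚ) (D : Set ℚ),
        D = {t | ∃ i, ∃ x : Fin b × Fin N → ℚ, (∀ j, (fun r => x (j, r)) ∈ S i j) ∧
          (fun s => ((x s : ℚ) : ℝ)) ∈ Ω i ∧ eval x (q i) ≠ 0 ∧
          t = eval x (p i) / eval x (q i)} →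
        D ⊆ Set.range ((↑) : ℤ → ℚ) → D.Finite := by
    intro a b N S hS Ω hΩ p q D hD hDZ
    have h3 := h1 ℚ ℝ (algebraMap ℚ ℝ) Rat.denseRange_cast a b N 1 S hS Ω hΩ
      (fun i _ => p i) q _ rfl
    have hval : ∀ t : Fin 1 → ℚ, t ∈ (⋃ i, values (algebraMap ℚ ℝ) (S i) (Ω i)
        (fun _ : Fin 1 => p i) (q i)) ↔ t 0 ∈ D := by
      intro t
      rw [hD, Set.mem_iUnion]
      constructor
      · rintro ⟨i, x, hx1, hx2, hx3, hx4⟩
        exact ⟨i, x, hx1, hx2, hx3, hx4 0⟩
      · rintro ⟨i, x, hx1, hx2, hx3, hx4⟩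
        refine ⟨i, x, hx1, hx2, hx3, fun k => ?_⟩
        rw [Subsingleton.elim k 0]
        exact hx4
    have h4 : D ⊆ (fun t : Fin 1 → ℚ => t 0) '' {t ∈ (⋃ i, values (algebraMap ℚ ℝ) (S i)
        (Ω i) (fun _ : Fin 1 => p i) (q i)) | ∃ U ∈ nhds (fun k => algebraMap ℚ ℝ (t k)),
          ∀ s ∈ (⋃ i, values (algebraMap ℚ ℝ) (S i) (Ω i) (fun _ : Fin 1 => p i) (q i)),
            (fun k => algebraMap ℚ ℝ (s k)) ∈ U → s = t} := by
      intro t ht
      refine ⟨fun _ => t, ⟨(hval _).2 ht, {z | z 0 ∈ Metric.ball ((t : ℚ) : ℝ) 1}, ?_, ?_⟩, rfl⟩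
      · exact (continuous_apply (0 : Fin 1)).continuousAt.preimage_mem_nhds
          (Metric.ball_mem_nhds _ one_pos)
      · intro s hs hsU
        have hs' := (hval s).1 hs
        obtain ⟨u, hu⟩ := hDZ ht
        obtain ⟨v, hv⟩ := hDZ hs'
        have h5 : (algebraMap ℚ ℝ (s 0)) ∈ Metric.ball ((t : ℚ) : ℝ) 1 := hsU
        rw [← hv, ← hu] at h5
        simp only [Metric.mem_ball, map_intCast, Rat.cast_intCast, Real.dist_eq] at h5
        have h6 : |v - u| < 1 := by exact_mod_cast h5
        have h7 : v - u = 0 := Int.abs_lt_one_iff.1 h6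
        have h8 : v = u := by omega
        funext k
        rw [Subsingleton.elim k 0, ← hv, ← hu, h8]
    exact (h3.image _).subset h4
  -- (3)
  have h3 : ∀ (n : ℕ) (S : Set (Fin n → ℚ)), Block S → ∀ p q : MvPolynomial (Fin n) ℚ,
      {t : ℚ | ∃ y ∈ S, eval y q ≠ 0 ∧ t = eval y p / eval y q} ≠ Set.range ((↑) : ℤ → ℚ) := by
    intro n S hS p q heq
    have h4 := h2 1 1 n (fun _ _ => S) (fun _ _ => hS)
      (fun _ => Set.univ) (fun _ => isOpen_univ) (fun _ => rename (fun r => ((0 : Fin 1), r)) p)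
      (fun _ => rename (fun r => ((0 : Fin 1), r)) q) (Set.range ((↑) : ℤ → ℚ)) ?_ subset_rfl
    · exact (Set.infinite_range_of_injective Int.cast_injective) h4
    · rw [← heq]
      ext t
      constructor
      · rintro ⟨y, hy1, hy2, hy3⟩
        refine ⟨0, fun s => y s.2, fun _ => hy1, Set.mem_univ _, ?_, ?_⟩
        · rw [eval_rename]
          exact hy2
        · rw [eval_rename, eval_rename]
          exact hy3
      · rintro ⟨-, x, hx1, -, hx3, hx4⟩
        rw [eval_rename] at hx3 hx4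
        rw [eval_rename] at hx4
        exact ⟨fun r => x (0, r), hx1 0, hx3, hx4⟩
  -- (4)
  have h4 : ∀ (K : Type) [Field K] [NumberField K] (n : ℕ) (F : MvPolynomial (Fin n × Fin 2) K),
      IsForm F → Smooth F →
      (n = 2 ∨ FewSpecialPlanes (map (algebraMap K (AlgebraicClosure K)) F)) →
      ∀ (D m : ℕ) (p : Fin m → MvPolynomial (Fin n) K) (q : MvPolynomial (Fin n) K),
      ∃ V : Set (Fin m → AlgebraicClosure K), V.Finite ∧
        ∀ (L : Type) [Field L] [NumberField L] [Algebra K L], Module.finrank K L ≤ D →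
        ∀ e : L, e ≠ 0 →
        ∀ (M : Type) [NontriviallyNormedField M] [CompleteSpace M] (σ : L →+* M), DenseRange σ →
        ∀ Ω : Set (Fin (n + 1) → M), IsOpen Ω → ∀ S : Set (Fin m → L),
          S = twistValues σ (map (algebraMap K L) F) e Ω (fun i => map (algebraMap K L) (p i))
            (map (algebraMap K L) q) →
          ∀ t ∈ S, (∃ U ∈ nhds (fun i => σ (t i)), ∀ s ∈ S, (fun i => σ (s i)) ∈ U → s = t) →
            ∀ φ : L →ₐ[K] AlgebraicClosure K, (fun i => φ (t i)) ∈ V := by
    intro K _ _ n F hF hs hfin D m p q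
    have : CharZero (AlgebraicClosure K) :=
      charZero_of_injective_algebraMap (algebraMap K (AlgebraicClosure K)).injective
    obtain ⟨a1, a2, a3, -, -⟩ := Pool.Agent.Q35.TB.exf2 K (AlgebraicClosure K) n F hF
    obtain ⟨c1, c2, -, -, -, -⟩ := Pool.Agent.Q182.TT.CHF.chf K n F hF fun _ => 0
    obtain ⟨-, -, -, -, d5, -⟩ := Pool.Agent.Q182.TT.CHF.chf (AlgebraicClosure K) n _ a1 fun _ => 0
    have hfinA := d5 (few_of a1 (a2.1 hs) hfin)
    rw [a3] at hfinA
    obtain ⟨V, hV, hV2⟩ := Pool.Agent.U199.K3.uniform K n _ c1 (c2 hs) hfinA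
      (fun L _ _ _ => ⟨((Pool.Agent.Q35.TB.exf2 K L n F hF).2.2.2.2 _ c1).1,
        ((Pool.Agent.Q35.TB.exf2 K L n F hF).2.2.2.2 _ c1).2.1⟩) D (Fin m) p q
    refine ⟨V, hV, ?_⟩
    intro L _ _ _ hLD e he M _ _ σ hσ Ω hΩ S hS t ht hiso φ
    have : Module.Finite K L := Module.Finite.of_restrictScalars_finite ℚ K L
    have : Algebra.IsAlgebraic K L := Algebra.IsAlgebraic.of_finite K L
    obtain ⟨b1, -, b3, -, -⟩ := Pool.Agent.Q35.TB.exf2 K L n F hF
    have hS' : S = Pool.Agent.U199.K3.tval σ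
        (Pool.Agent.Q35.TB.ex L (Pool.Agent.Q35.TT.ch F fun _ => 0)) e Ω
        (fun i => Pool.Agent.Q35.TB.ex L (p i)) (Pool.Agent.Q35.TB.ex L q) := by
      rw [hS, ← b3]
      exact twist_eq σ b1 e Ω _ _
    subst hS'
    exact hV2 L hLD e he M σ hσ Ω hΩ t ht hiso φ
  refine ⟨h1, h2, h3, h4, ?_⟩
  -- (5)
  intro n F hF hs hfin p q
  obtain ⟨V, hV, hV2⟩ := h4 ℚ n F hF hs hfin 1 1 (fun _ => p) q
  refine ⟨{k : ℤ | (fun _ : Fin 1 => algebraMap ℚ (AlgebraicClosure ℚ) (k : ℚ)) ∈ V}, ?_, ?_⟩
  · refine hV.preimage ?_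
    intro k _ k' _ h
    have h5 := congrFun h 0
    have h6 := (algebraMap ℚ (AlgebraicClosure ℚ)).injective h5
    exact_mod_cast h6
  · intro e he Ω hΩ S hS hSZ t ht
    obtain ⟨k, rfl⟩ := hSZ ht
    refine ⟨k, ?_, rfl⟩
    have hmem : ∀ s : Fin 1 → ℚ, s ∈ twistValues (algebraMap ℚ ℝ) (map (algebraMap ℚ ℚ) F) e Ω
        (fun _ : Fin 1 => map (algebraMap ℚ ℚ) p) (map (algebraMap ℚ ℚ) q) ↔ s 0 ∈ S := by
      intro s
      rw [hS]
      simp only [Algebra.algebraMap_self, map_id]
      constructor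
      · rintro ⟨w, z, q1, q2, q3, q4, q5⟩
        exact ⟨w, z, q1, q2, q3, q4, q5 0⟩
      · rintro ⟨w, z, q1, q2, q3, q4, q5⟩
        refine ⟨w, z, q1, q2, q3, q4, fun i => ?_⟩
        rw [Subsingleton.elim i 0]
        exact q5
    have h6 := hV2 ℚ (by rw [Module.finrank_self]) e he ℝ (algebraMap ℚ ℝ) Rat.denseRange_cast Ω hΩ
      _ rfl (fun _ => (k : ℚ)) ((hmem _).2 ht)
      ⟨{z | z 0 ∈ Metric.ball ((k : ℚ) : ℝ) 1},
        (continuous_apply (0 : Fin 1)).continuousAt.preimage_mem_nhds
          (Metric.ball_mem_nhds _ one_pos), ?_⟩ (Algebra.ofId ℚ (AlgebraicClosure ℚ))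
    · exact h6
    · intro s hs' hsU
      obtain ⟨v, hv⟩ := hSZ ((hmem s).1 hs')
      have h7 : (algebraMap ℚ ℝ (s 0)) ∈ Metric.ball ((k : ℚ) : ℝ) 1 := hsU
      rw [← hv] at h7
      simp only [Metric.mem_ball, map_intCast, Rat.cast_intCast, Real.dist_eq] at h7
      have h8 : |v - k| < 1 := by exact_mod_cast h7
      have h9 : v - k = 0 := Int.abs_lt_one_iff.1 h8
      have h10 : v = k := by omega
      funext i
      rw [Subsingleton.elim i 0, ← hv, h10]

end Pool.Agent.Results.MP_28f2cb_lc.K3DoubleCovers
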