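import Pool.Agent.U207.MZ.Dio

/-!
# MP_28f2cb_lc: Diophantine sets and smooth hypersurfaces of `P^n × E^m` with one rational fibre

Let `E` be the Fermat cubic `u^3 + v^3 = w^3` and `t_0 = (0 : 1 : 1)`. Let `δ(n)` be even and `≥ 4` for
all `n`.

**Theorem.** 1. A set `A ⊆ ℚ` is existentially definable in `ℚ` if and only if there are a smooth
hypersurface `Y` of multidegree `(δ(n); 2, …, 2)` in `P^n × E^(n + 2)` over `ℚ`, for some `n`, whose rational
points are all in the fibre over `(t_0, …, t_0)`, and coordinates `x_i`, `x_j` of `P^n` such that `A` is the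
set of the values of `x_j / x_i` at the rational points of `Y` with `x_i ≠ 0`.

2. In particular `ℤ` is existentially definable in `ℚ` (word for word the frozen statement) if and only
if `ℤ` is the set of these values for some `Y`, `i`, `j`.

For `δ = 4` these `Y` are smooth families of quartics over the abelian varieties `E^(n + 2)` with finite
Mordell-Weil groups; for `δ(n) ≥ n + 2` the canonical bundle of `Y` is ample.
-/

set_option autoImplicit false

namespace Pool.Agent.Results.MP_28f2cb_lc.OneRationalFibre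

open MvPolynomial Pool.Agent.U207.MZ

theorem result : ∀ δ : ℕ → ℕ, (∀ n, Even (δ n) ∧ 4 ≤ δ n) →
    -- 1. existentially definable subsets of `ℚ`
    (∀ A : Set ℚ, Dio A ↔ ∃ (n : ℕ) (G : MvPolynomial (Co n (n + 2)) ℚ) (i j : Fin (n + 1)),
      IsMulti (δ n) 2 G ∧ SmoothHyp G ∧ OneFibre G ∧ A = values G i j) ∧
    -- 2. the integers
    ((∃ n : ℕ, ∃ P : MvPolynomial (Fin (n + 1)) ℤ,
      ∀ q : ℚ, (∃ z : ℤ, (z : ℚ) = q) ↔
        ∃ y : Fin n → ℚ, MvPolynomial.aeval (Fin.cons q y : Fin (n + 1) → ℚ) P = 0) ↔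
    ∃ (n : ℕ) (G : MvPolynomial (Co n (n + 2)) ℚ) (i j : Fin (n + 1)),
      IsMulti (δ n) 2 G ∧ SmoothHyp G ∧ OneFibre G ∧
        ∀ q : ℚ, (∃ z : ℤ, (z : ℚ) = q) ↔ q ∈ values G i j) :=
  fun δ hδ => ⟨dio_iff δ hδ, int_iff δ hδ⟩

end Pool.Agent.Results.MP_28f2cb_lc.OneRationalFibre
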