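import Pool.Agent.U199.RS.Iso
import Pool.Agent.U199.TW.All
import Pool.Agent.Y718.IsoZ

/-!
# The integers are not defined by conditions on square classes of values of low degree (helper199)

Let `f_1(x_1), …, f_r(x_r)` be polynomials over `ℚ` in separate sets of variables, each one of the
following polynomials (`Factor`) or such a polynomial multiplied by the square of an arbitrary
polynomial:

(a) a chart of a form of multidegree `(4, …, 4)` on `(ℙ¹)^m` with smooth divisor, for `m ≥ 3` with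
only finitely many special planes (`w² = f` is a curve of genus one, a K3 surface, a Calabi–Yau
variety);

(b) a chart of a smooth quartic form in at least three variables (`w² = f` is a del Pezzo surface of
degree two, a quartic double solid etc.);

(c) a polynomial of degree at most two on all lines in the directions of a basis;

(d) an arbitrary polynomial of degree at most four in one variable.

Let `A ⊆ ℚ^r` be ANY set which is stable under multiplication of the coordinates by nonzero squares.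
It may be defined by any formula, with any number of further variables and of any degree, for example
by `t_b = g_b(y) c_b²`, `y ∈ Y`, `c_b ≠ 0`, for an arbitrary variety (or an arbitrary set) `Y` and
arbitrary functions `g_b`. We consider the values of a rational function `R(x)` at the rational points
`x` with `f_b(x_b) ≠ 0` and `(f_1(x_1), …, f_r(x_r)) ∈ A` in an open subset `Ω` of the real space, that
is the set defined by the formula

  `∃ x (t = R(x) ∧ x ∈ Ω ∧ f_b(x_b) ≠ 0 ∧ (f_1(x_1), …, f_r(x_r)) ∈ A)`.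

(1) For given `f_b` and given rational functions `R_1, …, R_l` there is ONE finite set `T ⊆ ℚ^l` which,
for ALL `A` and ALL `Ω`, contains all isolated points of the set of the values.

(2) There is ONE finite set `T` of integers such that for ALL `A` and ALL `Ω`, for which the set of the
values of `R` is a set of integers, this set is contained in `T`. So no condition of this kind on the
square classes of the values `f_b(x_b)` defines the set of the integers, or any infinite set of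
integers. (For `f(x) = x` the condition can be an arbitrary condition on the square class of `x`.)

(3) The same for conditions `f_b(x_b) = g_b(y) c_b²`, `c_b ≠ 0`, `g_b(y) ≠ 0`, with `y` in an arbitrary
set `Y` and arbitrary functions `g_b` on `Y`, with the same set `T` for all `Y` and `g_b`.

(4) A *block* is one of the blocks of `CubicEquations` or, in some of the variables, the set of the
rational solutions `(w, x)` of equations `w_i² = e_i ∏ f_b(x_b)^(a_ib)`, `i ≤ s`, with
`(f_1(x_1), …, f_r(x_r)) ∈ A`, and with `f_b(x_b) ≠ 0` for all `b` or with only finitely many rational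
zeros of those `f_b` which have at least two variables. Take the values of arbitrary rational functions
at the rational points of a product of blocks, restricted to an arbitrary open subset of the real space,
and take finite unions of such sets. A set of this kind has only finitely many isolated points.

(5) In particular, a set of integers of this kind is finite.
-/

set_option autoImplicit false

namespace Pool.Agent.Results.MP_28f2cb_lc.SquareClasses

open MvPolynomial

/-- `F` is a form of degree `4` in each pair of variables `(j, 0)`, `(j, 1)`, the coordinates of the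
`j`-th factor of `(ℙ¹)ⁿ`. -/
def IsForm {n : ℕ} (F : MvPolynomial (Fin n × Fin 2) ℚ) : Prop :=
  ∀ m ∈ F.support, ∀ j, m (j, 0) + m (j, 1) = 4

/-- The divisor `F = 0` in `(ℙ¹)ⁿ` is smooth. -/
def Smooth {n : ℕ} (F : MvPolynomial (Fin n × Fin 2) ℚ) : Prop :=
  ∀ x : Fin n × Fin 2 → AlgebraicClosure ℚ, (∀ j, ∃ b, x (j, b) ≠ 0) →
    ∃ p, aeval x (pderiv p F) ≠ 0

/-- The plane through `X` in the directions of `J` is special: on it the derivatives of `F` in the
other directions are constant multiples of `F`. -/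
def Special {n : ℕ} (F : MvPolynomial (Fin n × Fin 2) ℚ) (X : Fin n × Fin 2 → ℚ)
    (J : Finset (Fin n)) : Prop :=
  ∀ k, k ∉ J → ∀ b, ∃ c : ℚ, ∀ Y : Fin n × Fin 2 → ℚ, (∀ j, j ∉ J → ∀ b, Y (j, b) = X (j, b)) →
    eval Y (pderiv (k, b) F) = c * eval Y F

/-- There are only finitely many special planes through rational points off the divisor `F = 0`. -/
def FewSpecial {n : ℕ} (F : MvPolynomial (Fin n × Fin 2) ℚ) : Prop :=
  ∀ J : Finset (Fin n), J.Nonempty → J ≠ Finset.univ →
    {P : Set (Fin n × Fin 2 → ℚ) | ∃ X, eval X F ≠ 0 ∧ Special F X J ∧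
      P = {Y | ∀ j, j ∉ J → ∃ a : ℚ, a ≠ 0 ∧ ∀ b, Y (j, b) = a * X (j, b)}}.Finite

/-- The affine chart of `(ℙ¹)ⁿ` in which the coordinates `(j, ε j)` are `1`. -/
noncomputable def chart {n : ℕ} (F : MvPolynomial (Fin n × Fin 2) ℚ) (ε : Fin n → Fin 2) :
    MvPolynomial (Fin n) ℚ :=
  aeval (fun p : Fin n × Fin 2 => if p.2 = ε p.1 then 1 else X p.1) F

/-- `F` is a form of degree `4` with smooth zero set in the projective space. -/
def SmoothQuartic {n : ℕ} (F : MvPolynomial (Fin (n + 1)) ℚ) : Prop :=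
  F.IsHomogeneous 4 ∧ ∀ y : Fin (n + 1) → ℂ,
    (∀ i, eval y (pderiv i (map (algebraMap ℚ ℂ) F)) = 0) → y = 0

/-- The affine chart of `ℙⁿ` in which the coordinate `p` is `1`. -/
noncomputable def dehomogenise {n : ℕ} (F : MvPolynomial (Fin (n + 1)) ℚ) (p : Fin (n + 1)) :
    MvPolynomial (Fin n) ℚ :=
  aeval (Fin.insertNth (α := fun _ => MvPolynomial (Fin n) ℚ) p 1 X) F

/-- The polynomial `f` has degree at most two on all lines of direction `v`. -/
def DegreeTwo {n : ℕ} (f : MvPolynomial (Fin n) ℚ) (v : Fin n → ℚ) : Prop :=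
  ∀ z : Fin n → ℚ, (aeval (fun k => Polynomial.C (z k) + Polynomial.C (v k) * Polynomial.X) f :
    Polynomial ℚ).natDegree ≤ 2

/-- The factors. -/
inductive Factor : ∀ n : ℕ, MvPolynomial (Fin n) ℚ → Prop
  | multiform {n : ℕ} (F : MvPolynomial (Fin n × Fin 2) ℚ) (ε : Fin n → Fin 2) : IsForm F →
      Smooth F → n ≤ 2 ∨ FewSpecial F → Factor n (chart F ε)
  | quartic {n : ℕ} (F : MvPolynomial (Fin (n + 1)) ℚ) (p : Fin (n + 1)) : 2 ≤ n →
      SmoothQuartic F → Factor n (dehomogenise F p)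
  | quadratic {n : ℕ} (f : MvPolynomial (Fin n) ℚ) (b : Fin n → Fin n → ℚ) :
      LinearIndependent ℚ b → (∀ k, DegreeTwo f (b k)) → Factor n f
  | oneVariable (f : MvPolynomial (Fin 1) ℚ) : f.degreeOf 0 ≤ 4 → Factor 1 f
  | square {n : ℕ} (f g : MvPolynomial (Fin n) ℚ) : Factor n f → Factor n (g ^ 2 * f)

section

variable {r : ℕ} {m : Fin r → ℕ} (f : ∀ b : Fin r, MvPolynomial (Fin (m b)) ℚ)

/-- The value of the factor `f b` at the coordinates in the block `b`. -/
noncomputable def value (z : (Σ b, Fin (m b)) → ℚ) (b : Fin r) : ℚ := eval (fun i => z ⟨b, i⟩) (f b)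

/-- The set is stable under multiplication of the coordinates by nonzero squares. -/
def SquareStable (A : Set (Fin r → ℚ)) : Prop :=
  ∀ t ∈ A, ∀ c : Fin r → ℚ, (∀ b, c b ≠ 0) → (fun b => c b ^ 2 * t b) ∈ A

variable {s : ℕ} (e : Fin s → ℚ) (a : Fin s → Fin r → ℕ)

/-- The product `e_i ∏ f_b(x_b)^(a_ib)`. -/
noncomputable def rhs (i : Fin s) : MvPolynomial (Σ b, Fin (m b)) ℚ :=
  C (e i) * ∏ b, rename (Sigma.mk b) (f b) ^ a i b

/-- The rational points `(w, x)` of the variety `w_i² = e_i ∏ f_b(x_b)^(a_ib)`, `i < s`, for which the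
vector of the values `f_b(x_b)` is in `A`. -/
def points (A : Set (Fin r → ℚ)) : Set (Fin s ⊕ (Σ b, Fin (m b)) → ℚ) :=
  {u | value f (fun k => u (Sum.inr k)) ∈ A ∧
    ∀ i, u (Sum.inl i) ^ 2 = eval (fun k => u (Sum.inr k)) (rhs f e a i)}

/-- The points at which no factor vanishes. -/
def openPoints (A : Set (Fin r → ℚ)) : Set (Fin s ⊕ (Σ b, Fin (m b)) → ℚ) :=
  {u | (∀ b, value f (fun k => u (Sum.inr k)) b ≠ 0) ∧ u ∈ points f e a A}

/-- The values of the rational functions `p k / q` at the rational points `x` in `Ω`, at which no factor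
vanishes and the vector of the values `f_b(x_b)` is in `A`. -/
def twistValues (A : Set (Fin r → ℚ)) (Ω : Set ((Σ b, Fin (m b)) → ℝ)) {l : ℕ}
    (p : Fin l → MvPolynomial (Σ b, Fin (m b)) ℚ) (q : MvPolynomial (Σ b, Fin (m b)) ℚ) :
    Set (Fin l → ℚ) :=
  {t | ∃ x : (Σ b, Fin (m b)) → ℚ, ((∀ b, value f x b ≠ 0) ∧ value f x ∈ A) ∧
    (fun k => (x k : ℝ)) ∈ Ω ∧ eval x q ≠ 0 ∧ ∀ k, t k = eval x (p k) / eval x q}

end

/-- The rational zeros. -/
def zeros {n : ℕ} (f : MvPolynomial (Fin n) ℚ) : Set (Fin n → ℚ) := {z | eval z f = 0}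

/-- The points whose coordinates in some of `N` variables form a point of one of the sets
`openPoints f e a A`, or of one of the sets `points f e a A` if those `f b` which have at least two
variables have only finitely many rational zeros. -/
def TwistBlock {N : ℕ} (S : Set (Fin N → ℚ)) : Prop :=
  ∃ (r s : ℕ) (m : Fin r → ℕ) (f : ∀ b, MvPolynomial (Fin (m b)) ℚ) (e : Fin s → ℚ)
    (a : Fin s → Fin r → ℕ) (A : Set (Fin r → ℚ)) (j : Fin s ⊕ (Σ b, Fin (m b)) → Fin N),
    (∀ b, Factor (m b) (f b)) ∧ SquareStable A ∧ Function.Injective j ∧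
    (S = {y | (fun i => y (j i)) ∈ openPoints f e a A} ∨
      (∀ b, 2 ≤ m b → (zeros (f b)).Finite) ∧ S = {y | (fun i => y (j i)) ∈ points f e a A})

/-- The blocks: those of `CubicEquations`, and the sets `TwistBlock`. -/
def Block {N : ℕ} (S : Set (Fin N → ℚ)) : Prop := CubicEquations.Block S ∨ TwistBlock S

open Pool.Agent.U199.RS Pool.Agent.U199.TW Pool.Agent.TH729.SQ Pool.Agent.H581R2
  Pool.Agent.Y718 Pool.Agent.Y718.SupL

lemma rb_factor {n : ℕ} {f : MvPolynomial (Fin n) ℚ} (h : Factor n f) : RB f := by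
  induction h with
  | multiform F ε hF hs hn =>
    obtain ⟨c1, c2, -, -, c5, -⟩ := Pool.Agent.Q182.TT.CHF.chf ℚ _ F hF ε
    exact rb_base _ c1 (c2 hs) (c5 (fs_of F hF hs hn))
  | quartic F p hn hF => exact rb_quart hF.1 hF.2 hn p
  | quadratic f b hb hd => exact rb_dir b hb hd
  | oneVariable f hf => exact rb_one hf
  | square f g _ ih => exact rb_sq g ih

lemma zero_SA {n : ℕ} (f : MvPolynomial (Fin n) ℚ)
    (h : 2 ≤ n → (zeros f).Finite) : SA (closure (rl (zeros f))) := by
  by_cases hb : 2 ≤ n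
  · exact fin_SA (h hb)
  · exact zero_small (by omega) f

lemma Block.sa {N : ℕ} {S : Set (Fin N → ℚ)} (h : Block S) : SA (closure (rl S)) := by
  rcases h with h | ⟨r, s, m, f, e, a, A, j, hf, hA, hj, rfl | ⟨hz, rfl⟩⟩
  · exact IsoR.cubic_SA h
  · exact cyl_rl (po_SA f e a (fun b => rb_factor (hf b)) hA) hj
  · exact cyl_rl (pt_SA f e a (fun b => rb_factor (hf b)) (fun b => zero_SA (f b) (hz b)) hA) hj

open CubicEquations (values)

section

variable {r : ℕ} {m : Fin r → ℕ} {f : ∀ b : Fin r, MvPolynomial (Fin (m b)) ℚ}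

lemma iso_twist (hf : ∀ b, Factor (m b) (f b)) (l : ℕ)
    (p : Fin l → MvPolynomial (Σ b, Fin (m b)) ℚ) (q : MvPolynomial (Σ b, Fin (m b)) ℚ) :
    ∃ T : Set (Fin l → ℚ), T.Finite ∧ ∀ A : Set (Fin r → ℚ), SquareStable A →
      ∀ Ω : Set ((Σ b, Fin (m b)) → ℝ), IsOpen Ω → ∀ t ∈ twistValues f A Ω p q,
        (∃ U ∈ nhds (fun k => (t k : ℝ)), ∀ s ∈ twistValues f A Ω p q,
          (fun k => (s k : ℝ)) ∈ U → s = t) → t ∈ T := by
  obtain ⟨E, hE, h⟩ := re_prod fun b => rb_factor (hf b)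
  exact ⟨_, iso_fin hE p q, fun A hA Ω hΩ t ht hiso =>
    iso_plane (nv_open f) (da_nv f) (h A hA) hΩ ht hiso⟩

lemma int_twist (hf : ∀ b, Factor (m b) (f b)) (p q : MvPolynomial (Σ b, Fin (m b)) ℚ) :
    ∃ T : Finset ℤ, ∀ A : Set (Fin r → ℚ), SquareStable A →
      ∀ Ω : Set ((Σ b, Fin (m b)) → ℝ), IsOpen Ω → ∀ D : Set ℚ,
        D = {t | (fun _ => t) ∈ twistValues f A Ω (fun _ : Fin 1 => p) q} →
        D ⊆ Set.range ((↑) : ℤ → ℚ) → ∀ t ∈ D, ∃ n ∈ T, t = (n : ℚ) := by
  classical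
  obtain ⟨T, hT, h⟩ := iso_twist hf 1 (fun _ => p) q
  have hT' : {n : ℤ | (fun _ : Fin 1 => (n : ℚ)) ∈ T}.Finite := by
    refine hT.preimage ?_
    intro a _ b _ hab
    have h0 : (a : ℚ) = (b : ℚ) := congrFun hab 0
    exact_mod_cast h0
  refine ⟨hT'.toFinset, ?_⟩
  intro A hA Ω hΩ D hD hDZ t ht
  obtain ⟨n, rfl⟩ := hDZ ht
  refine ⟨n, ?_, rfl⟩
  rw [Set.Finite.mem_toFinset]
  have ht' : (fun _ : Fin 1 => (n : ℚ)) ∈ twistValues f A Ω (fun _ : Fin 1 => p) q := by
    rw [hD] at ht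
    exact ht
  refine h A hA Ω hΩ _ ht' ⟨Metric.ball (fun _ => ((n : ℚ) : ℝ)) 1,
    Metric.ball_mem_nhds _ one_pos, fun s hs hsU => ?_⟩
  have hs0 : s 0 ∈ D := by
    rw [hD]
    have h1 : (fun _ : Fin 1 => s 0) = s := by
      funext k
      rw [Subsingleton.elim k 0]
    have h2 : (fun _ : Fin 1 => s 0) ∈ twistValues f A Ω (fun _ : Fin 1 => p) q := by
      rw [h1]
      exact hs
    exact h2
  obtain ⟨n', hn'⟩ := hDZ hs0
  rw [Metric.mem_ball, dist_pi_lt_iff one_pos] at hsU
  have h2 := hsU 0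
  rw [Real.dist_eq, ← hn'] at h2
  push_cast at h2
  have h3 : |((n' - n : ℤ) : ℝ)| < 1 := by
    push_cast
    exact h2
  have h4 : |n' - n| < 1 := by exact_mod_cast h3
  have h5 : n' = n := by
    have := abs_lt.1 h4
    omega
  funext k
  rw [Subsingleton.elim k 0, ← hn', h5]

end

/-- **Conditions on square classes do not define infinite sets of integers.** -/
theorem result :
    (∀ (r : ℕ) (m : Fin r → ℕ) (f : ∀ b : Fin r, MvPolynomial (Fin (m b)) ℚ),
      (∀ b, Factor (m b) (f b)) →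
      -- (1) one finite set contains all isolated values, for all conditions
      (∀ (l : ℕ) (p : Fin l → MvPolynomial (Σ b, Fin (m b)) ℚ)
        (q : MvPolynomial (Σ b, Fin (m b)) ℚ),
        ∃ T : Set (Fin l → ℚ), T.Finite ∧ ∀ A : Set (Fin r → ℚ), SquareStable A →
        ∀ Ω : Set ((Σ b, Fin (m b)) → ℝ), IsOpen Ω → ∀ t ∈ twistValues f A Ω p q,
          (∃ U ∈ nhds (fun k => (t k : ℝ)), ∀ s ∈ twistValues f A Ω p q,
            (fun k => (s k : ℝ)) ∈ U → s = t) → t ∈ T) ∧
      ∀ p q : MvPolynomial (Σ b, Fin (m b)) ℚ, ∃ T : Finset ℤ,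
        -- (2) one finite set contains all sets of integers, for all conditions
        (∀ A : Set (Fin r → ℚ), SquareStable A →
          ∀ Ω : Set ((Σ b, Fin (m b)) → ℝ), IsOpen Ω → ∀ D : Set ℚ,
          D = {t | ∃ x : (Σ b, Fin (m b)) → ℚ, (∀ b, value f x b ≠ 0) ∧ value f x ∈ A ∧
            (fun k => (x k : ℝ)) ∈ Ω ∧ eval x q ≠ 0 ∧ t = eval x p / eval x q} →
          D ⊆ Set.range ((↑) : ℤ → ℚ) → ∀ t ∈ D, ∃ n ∈ T, t = (n : ℚ)) ∧
        -- (3) conditions with further variables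
        (∀ (Y : Type) (g : Y → Fin r → ℚ) (Ω : Set ((Σ b, Fin (m b)) → ℝ)), IsOpen Ω →
          ∀ D : Set ℚ,
          D = {t | ∃ (x : (Σ b, Fin (m b)) → ℚ) (y : Y) (c : Fin r → ℚ),
            (∀ b, c b ≠ 0 ∧ g y b ≠ 0 ∧ value f x b = g y b * c b ^ 2) ∧
            (fun k => (x k : ℝ)) ∈ Ω ∧ eval x q ≠ 0 ∧ t = eval x p / eval x q} →
          D ⊆ Set.range ((↑) : ℤ → ℚ) → ∀ t ∈ D, ∃ n ∈ T, t = (n : ℚ))) ∧
    -- (4) finitely many isolated points
    (∀ (a b N m : ℕ) (S : Fin a → Fin b → Set (Fin N → ℚ)), (∀ i j, Block (S i j)) →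
      ∀ (Ω : Fin a → Set (Fin b × Fin N → ℝ)), (∀ i, IsOpen (Ω i)) →
      ∀ (p : Fin a → Fin m → MvPolynomial (Fin b × Fin N) ℚ)
        (q : Fin a → MvPolynomial (Fin b × Fin N) ℚ) (D : Set (Fin m → ℚ)),
        D = ⋃ i, values (algebraMap ℚ ℝ) (S i) (Ω i) (p i) (q i) →
        {t ∈ D | ∃ U ∈ nhds (fun k => (t k : ℝ)), ∀ s ∈ D, (fun k => (s k : ℝ)) ∈ U →
          s = t}.Finite) ∧
    -- (5) sets of integers of this kind are finite
    (∀ (a b N : ℕ) (S : Fin a → Fin b → Set (Fin N → ℚ)), (∀ i j, Block (S i j)) →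
      ∀ (Ω : Fin a → Set (Fin b × Fin N → ℝ)), (∀ i, IsOpen (Ω i)) →
      ∀ (p q : Fin a → MvPolynomial (Fin b × Fin N) ℚ) (D : Set ℚ),
        D = {t | ∃ i, ∃ x : Fin b × Fin N → ℚ, (∀ j, (fun r => x (j, r)) ∈ S i j) ∧
          (fun s => ((x s : ℚ) : ℝ)) ∈ Ω i ∧ eval x (q i) ≠ 0 ∧
          t = eval x (p i) / eval x (q i)} →
        D ⊆ Set.range ((↑) : ℤ → ℚ) → D.Finite) := by
  refine ⟨fun r m f hf => ⟨fun l p q => iso_twist hf l p q, fun p q => ?_⟩, ?_, ?_⟩
  · obtain ⟨T, hT⟩ := int_twist hf p q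
    have key : ∀ A : Set (Fin r → ℚ), SquareStable A →
        ∀ Ω : Set ((Σ b, Fin (m b)) → ℝ), IsOpen Ω → ∀ D : Set ℚ,
        D = {t | ∃ x : (Σ b, Fin (m b)) → ℚ, (∀ b, value f x b ≠ 0) ∧ value f x ∈ A ∧
          (fun k => (x k : ℝ)) ∈ Ω ∧ eval x q ≠ 0 ∧ t = eval x p / eval x q} →
        D ⊆ Set.range ((↑) : ℤ → ℚ) → ∀ t ∈ D, ∃ n ∈ T, t = (n : ℚ) := by
      intro A hA Ω hΩ D hD
      refine hT A hA Ω hΩ D ?_
      rw [hD]
      ext t
      constructor
      · rintro ⟨x, h1, h2, h3, h4, h5⟩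
        exact ⟨x, ⟨h1, h2⟩, h3, h4, fun _ => h5⟩
      · rintro ⟨x, ⟨h1, h2⟩, h3, h4, h5⟩
        exact ⟨x, h1, h2, h3, h4, h5 0⟩
    refine ⟨T, key, ?_⟩
    intro Y g Ω hΩ D hD
    refine key {t | ∃ (y : Y) (c : Fin r → ℚ), ∀ b, c b ≠ 0 ∧ g y b ≠ 0 ∧ t b = g y b * c b ^ 2}
      ?_ Ω hΩ D ?_
    · rintro t ⟨y, c, hc⟩ d hd
      refine ⟨y, fun b => d b * c b, fun b => ⟨mul_ne_zero (hd b) (hc b).1, (hc b).2.1, ?_⟩⟩
      show d b ^ 2 * t b = g y b * (d b * c b) ^ 2
      rw [(hc b).2.2]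
      ring
    · rw [hD]
      ext t
      constructor
      · rintro ⟨x, y, c, h1, h2, h3, h4⟩
        refine ⟨x, fun b => ?_, ⟨y, c, h1⟩, h2, h3, h4⟩
        rw [(h1 b).2.2]
        exact mul_ne_zero (h1 b).2.1 (pow_ne_zero 2 (h1 b).1)
      · rintro ⟨x, -, ⟨y, c, h1⟩, h2, h3, h4⟩
        exact ⟨x, y, c, h1, h2, h3, h4⟩
  · intro a b N m S hS Ω hΩ p q D hD
    exact IsoR.iso_union (fun i j => (hS i j).sa) hΩ p q hD
  · intro a b N S hS Ω hΩ p q D hD hDZ
    exact IsoR.ints (fun i j => (hS i j).sa) hΩ p q hD hDZ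

end Pool.Agent.Results.MP_28f2cb_lc.SquareClasses
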